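import Pool.Agent.N493.PC5
import Pool.Agent.Y627.PT.Eta
import Pool.Agent.R836.RD.Main

set_option autoImplicit false

/-!
# Parity patterns of the partition function against automata in all bases (MP_ebc808_nt)

Let `𝓜` be a finite set of positive integers, `F_1, …, F_k` eta-quotients `∏ f_d ^ (e_d)` with
coefficients `a_j(n)` and `s_j = ∑ d e_d`, let `y_1, …, y_l` be power series over `F_2` which satisfy
Mahler equations `∑_{i ≤ N} A_i(X) y(X ^ (g ^ i)) = 0` with polynomials `A_i`, not all zero, in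
arbitrary and possibly different bases `g ≥ 2`, and let `𝓖` be a finite set of bases `≥ 2`, `M ≥ 1`,
`Q ≥ 0`. Call `m ∈ 𝓜` active if `m / g ≢ m' / g (mod 24)`, `g = gcd(m, m')`, for all `m' ∈ 𝓜`,
`m' ≠ m`, and `m s_j ≢ -1 (mod 24)` for all `j` (the latter is satisfied for all `m` if `s_j` and 24
have a common prime factor, for instance for `f_8 ^ 3`, whose coefficient at `n` is odd exactly if
`n + 1` is an odd square). There is a constant `C`, depending only on `𝓜`, the `F_j`, the `y_j`, `𝓖`,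
`M` and `Q`, such that for all coefficients `c`, `b`, `d` in `F_2` with `c(m, i) ≠ 0` for some active
`m` and some `i < K`, and all `ρ`, the sum

  `W(n) = ∑_{m ∈ 𝓜} ∑_{i < K} c(m, i) p(m n + i) + ∑_j ∑_{i < K} b(j, i) a_j(n + i) +
    ∑_j ∑_{i < K} d(j, i) (coefficient of y_j at n + i) + ∑_z u_z(n + t_z)` modulo 2,

in which the `u_z` are arbitrarily many sequences, each computed by a finite automaton with at most
`Q` states which reads the digits of its argument in a base of `𝓖` (in one of the two directions;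
different `u_z` may use different bases), and `t_z < K`, takes both values on the `n ≡ ρ (mod M)` in
every interval `[A, C (A + K)]`.

Example (`𝓜 = {1}`, `k = 0`, `K = 1`): for every `Q`, every finite set of bases and every `M` there is
a `C` such that every finite automaton with at most `Q` states reading the digits of `n` in one of the
bases, and every sum modulo 2 of the outputs of such automata, predicts the parity of `p(n)` wrongly
for some `n ≡ ρ (mod M)` and correctly for some `n ≡ ρ (mod M)` in every interval `[A, C (A + 1)]`. In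
particular the parity of `p(n)` is not an automatic sequence in any base, and not a sum of automatic
sequences in several bases; this holds on every residue class.

The starting file `AutomaticSequences` has base 2, `24 ∣ s_j` and the assumption of an odd value in the
classes of `p` that occur. The new method is described in
`Results/MP_a3366f_nt/AutomataAndMahlerFunctions`; that the modular part of `W` is odd infinitely often
is proved with the starting file and Radu's theorem that `p` has odd values on every residue class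
(starting file `R836/RD`).
-/

namespace Pool.Agent.Results.MP_ebc808_nt.AutomataInAllBases

open PowerSeries

/-- `f_d = ∏_{i ≥ 1} (1 - q ^ (d i))`: Mathlib's series `pentagonalSeries ℤ = ∏_{i ≥ 1} (1 - q ^ i)`
in the variable `q ^ d` -/
noncomputable def f (d : ℕ) : ℤ⟦X⟧ :=
  PowerSeries.mk fun n => if d ∣ n then coeff (n / d) (pentagonalSeries ℤ) else 0

/-- `F = ∏_{d ∈ D} f_d ^ (u_d - v_d)`, an eta-quotient, and `s = ∑_{d ∈ D} d (u_d - v_d)` -/
def IsEtaQuotient (F : ℤ⟦X⟧) (s : ℤ) : Prop :=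
  ∃ (D : Finset ℕ) (u v : ℕ → ℕ), 0 ∉ D ∧ F * ∏ d ∈ D, f d ^ v d = ∏ d ∈ D, f d ^ u d ∧
    s = ∑ d ∈ D, (d : ℤ) * ((u d : ℤ) - v d)

/-- `y` satisfies an equation `∑_{i ≤ N} a_i(X) y(X ^ (g ^ i)) = 0` for some `g ≥ 2`, where the `a_i`
are polynomials, not all zero -/
def IsMahler (y : (ZMod 2)⟦X⟧) : Prop :=
  ∃ (g N : ℕ) (a : ℕ → Polynomial (ZMod 2)), 2 ≤ g ∧ (∃ i ≤ N, a i ≠ 0) ∧
    ∑ i ∈ Finset.range (N + 1), (a i : (ZMod 2)⟦X⟧) *
      (PowerSeries.mk fun n => if g ^ i ∣ n then coeff (n / g ^ i) y else 0) = 0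

/-- `u(n)` is computed by a finite automaton with at most `Q` states (transition function `δ`, initial
state `q`, output function `h`) which reads the digits of `n` in base `g` (`Nat.digits g n`, least
significant digit first, empty for `n = 0`), starting from the least significant one or starting from
the most significant one -/
def Automatic (g Q : ℕ) (u : ℕ → ZMod 2) : Prop :=
  ∃ (s : ℕ) (δ : Fin s → ℕ → Fin s) (q : Fin s) (h : Fin s → ZMod 2), s ≤ Q ∧
    ((∀ n, u n = h ((Nat.digits g n).foldl δ q)) ∨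
      (∀ n, u n = h ((Nat.digits g n).reverse.foldl δ q)))

theorem result (𝓜 : Finset ℕ) (h0 : 0 ∉ 𝓜) (k : ℕ) (F : Fin k → ℤ⟦X⟧) (s : Fin k → ℤ)
    (hF : ∀ j, IsEtaQuotient (F j) (s j)) (l : ℕ) (y : Fin l → (ZMod 2)⟦X⟧)
    (hy : ∀ j, IsMahler (y j)) (𝓖 : Finset ℕ) (h𝓖 : ∀ g ∈ 𝓖, 2 ≤ g) (M : ℕ) (hM : 0 < M) (Q : ℕ) :
    ∃ C : ℕ, ∀ (K : ℕ) (c : ℕ → ℕ → ZMod 2) (b : Fin k → ℕ → ZMod 2) (d : Fin l → ℕ → ZMod 2)
      (ρ : ℕ),
      (∃ m ∈ 𝓜, (∀ m' ∈ 𝓜, m ≠ m' → ¬ m / Nat.gcd m m' ≡ m' / Nat.gcd m m' [MOD 24]) ∧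
        (∀ j, ¬ (24 : ℤ) ∣ m * s j + 1) ∧ ∃ i < K, c m i ≠ 0) →
      ∀ (L : ℕ) (u : Fin L → ℕ → ZMod 2) (t : Fin L → ℕ),
        (∀ z, ∃ g ∈ 𝓖, Automatic g Q (u z)) → (∀ z, t z < K) →
      ∀ (κ : ZMod 2) (A : ℕ), ∃ n, A ≤ n ∧ n ≤ C * (A + K) ∧ n ≡ ρ [MOD M] ∧
        ∑ m ∈ 𝓜, ∑ i ∈ Finset.range K,
            c m i * (Fintype.card (Nat.Partition (m * n + i)) : ZMod 2) +
          ∑ j, ∑ i ∈ Finset.range K, b j i * ((coeff (n + i) (F j) : ℤ) : ZMod 2) +
          ∑ j, ∑ i ∈ Finset.range K, d j i * coeff (n + i) (y j) +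
          ∑ z, u z (n + t z) = κ := by
  classical
  have hP : ∀ n, PowerSeries.coeff n Pool.Agent.TH693.PP.P =
      (Fintype.card (Nat.Partition n) : ZMod 2) := fun n => PowerSeries.coeff_mk _ _
  have hpos : ∀ x : {x // x ∈ 𝓜}, 0 < (x : ℕ) := fun x =>
    Nat.pos_of_ne_zero fun h => h0 (h ▸ x.2)
  have hS : ∀ j, Pool.Agent.Y627.PT.Sec ((F j).map (Int.castRingHom (ZMod 2))) (-(s j)) := by
    intro j
    obtain ⟨D, u, v, hD, hrel, hs⟩ := hF j
    rw [hs]
    exact Pool.Agent.Y627.PT.sec_eta D u v hD (F j) hrel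
  set G : {x // x ∈ 𝓜} ⊕ Fin k → (ZMod 2)⟦X⟧ :=
    Sum.elim (fun _ => Pool.Agent.TH693.PP.P) (fun j => (F j).map (Int.castRingHom (ZMod 2))) with hG
  set τ : {x // x ∈ 𝓜} ⊕ Fin k → ℤ := Sum.elim (fun _ => 1) (fun j => -(s j)) with hτ
  set mm : {x // x ∈ 𝓜} ⊕ Fin k → ℕ := Sum.elim (fun x => (x : ℕ)) (fun _ => 1) with hmm
  have hsec : ∀ x, Pool.Agent.Y627.PT.Sec (G x) (τ x) := by
    rintro (x | j)
    · exact Pool.Agent.Y627.PT.sec_P
    · exact hS j
  have hmpos : ∀ x, 0 < mm x := by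
    rintro (x | j)
    · exact hpos x
    · exact one_pos
  obtain ⟨C1, hC1⟩ := Pool.Agent.R498.AU.main (Z := Fin 0) G τ hsec mm hmpos M hM
    (fun z => z.elim0) (fun z => z.elim0)
  obtain ⟨C, hC⟩ := Pool.Agent.N493.PB.main_all G τ hsec mm hmpos l y hy 𝓖 h𝓖 M hM Q
  refine ⟨C, fun K c b d ρ hc L u t hu ht κ A => ?_⟩
  set cc : {x // x ∈ 𝓜} ⊕ Fin k → ℕ → ZMod 2 :=
    Sum.elim (fun x i => c x i) (fun j i => b j i) with hcc
  -- the modular part is odd infinitely often
  have hodd : ∃ n, C * K ≤ n ∧ n % M = ρ % M ∧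
      ∑ x, ∑ i ∈ Finset.range K, cc x i * coeff (mm x * n + i) (G x) ≠ 0 := by
    obtain ⟨m, hm, hact, hsj, i, hi, hci⟩ := hc
    obtain ⟨n, h1, -, h3, h4⟩ := hC1 K cc (fun z => z.elim0) ρ (by
      refine ⟨Sum.inl ⟨m, hm⟩, by simp only [hτ, Sum.elim_inl]; norm_num, ?_, i, hi, hci, ?_⟩
      · rintro (y | j) hxy h
        · simp only [hτ, hmm, Sum.elim_inl] at h
          apply hact y y.2 (fun h => hxy (congrArg Sum.inl (Subtype.ext h)))
          rw [one_mul, one_mul] at h
          have h1 := (Int.modEq_iff_dvd).2 h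
          exact (Int.natCast_modEq_iff).1 h1
        · simp only [hτ, hmm, Sum.elim_inl, Sum.elim_inr, Nat.gcd_one_right, Nat.div_one] at h
          apply hsj j
          obtain ⟨w, hw⟩ := h
          refine ⟨w, ?_⟩
          push_cast at hw
          linear_combination hw
      · simp only [hG, hmm, Sum.elim_inl]
        intro h5
        have hmM : 0 < m * M := Nat.mul_pos (hpos ⟨m, hm⟩) hM
        obtain ⟨n, -, h1⟩ := Pool.Agent.R836.RD.full_P 1 odd_one (m * M) (m * ρ + i) hmM 0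
        rw [pow_one] at h1
        have h6 := congrArg (PowerSeries.coeff (m * M * n + (m * ρ + i))) h5
        rw [Pool.Agent.TH693.QQ.proj, PowerSeries.coeff_mk, map_zero,
          if_pos (Nat.mul_add_mod _ _ _), h1] at h6
        exact one_ne_zero h6) 1 (C * K)
    refine ⟨n, h1, h3, ?_⟩
    intro h5
    rw [h5, zero_add, Fin.sum_univ_zero] at h4
    exact zero_ne_one h4
  obtain ⟨n, h1, h2, h3, h4⟩ := hC K cc d ρ hodd L u t hu ht κ A
  refine ⟨n, h1, h2, h3, ?_⟩
  rw [← h4, Fintype.sum_sum_type]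
  simp only [hcc, hG, hmm, Sum.elim_inl, Sum.elim_inr, one_mul]
  congr 1
  congr 1
  congr 1
  rw [Finset.sum_coe_sort 𝓜 (fun m => ∑ i ∈ Finset.range K,
    c m i * PowerSeries.coeff (m * n + i) Pool.Agent.TH693.PP.P)]
  refine Finset.sum_congr rfl fun m _ => Finset.sum_congr rfl fun i _ => ?_
  rw [hP]

end Pool.Agent.Results.MP_ebc808_nt.AutomataInAllBases
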