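import Pool.Agent.N493.PE5

set_option autoImplicit false

/-!
# Joint parity patterns of `p(n), p(4n), p(16n), …` against bounded-memory predictors (MP_ebc808_nt)

For all `A, L, b, R, Q, K` there is `X` such that for all `x ≥ X`, every nonzero array
`c_{a,i}` (`a ≤ A`, `i ≤ L`) over `F_2`, every Boolean function `Φ` of the outputs
`v_1(n), …, v_R(n)` of `R` computations which read the binary digits of `n` in one pass, from the lowest
or from the highest, with a memory of `Q` states (all these may depend on `x`, and what is done with a
digit may depend on its place), every residue class `ρ` modulo `2 ^ b` and both values `κ`, the equation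
`∑_{a ≤ A} ∑_{i ≤ L} c_{a,i} p(4 ^ a n + i) + Φ(v_1(n), …, v_R(n)) = κ` modulo 2 has at least
`√x (log log x) ^ K / log x` solutions `n ≤ x` in the class. If the parities of the values of `p` are
like random bits, then the number is about `x / 2 ^ (b + 1)`.

Examples: `p(n)` and `p(4 n)` differ modulo 2, and agree, that often; the same for
`p(n) + p(4 n + 1) + p(16 n + 7)` and any automatic sequence in a base `2 ^ j` (the outputs of automata
with `Q'` states in base `2 ^ j` are computed in one pass with `Q = 2 ^ (j - 1) Q'` states).

Method. (1) Let `f = ∏ (1 - X ^ i)`, `S` the set of the exponents of `f ^ (2 ^ e)`, `e` large and even,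
and `μ_a = (4 ^ a 2 ^ e - 1) / 3`. The set `4 ^ a S` belongs to `f ^ (4 ^ a 2 ^ e)`, and
`F f ^ (4 ^ a 2 ^ e) = f ^ (3 μ_a)` for the generating function `F` of the partitions. So the sum of the
joint pattern over the shifts `n - s`, `s ∈ S`, `s ≤ n`, is the sum of the
`c_{a,i}` times the coefficients of `D ^ (μ_a)` at `8 (4 ^ a n + i) + μ_a`, if `S` has no element in
`(n, n + L]` (`D` the discriminant modulo 2). These arguments are pairwise non-proportional linear
forms in `n`, since the `μ_a` are odd. By the Chinese remainder theorem there is a class of `n` on which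
all of them but one are divisible exactly once by more primes `≡ 3 (mod 8)` than the index of
nilpotency (Nicolas and Serre; starting files `H307R2/OP`), and by the starting files `R836/PP` the
remaining coefficient is `1` at many elements of every such class. (2) If `2 ^ k` is large in terms of
`b, Q, R`, two residues `r, r'` modulo `2 ^ k` in the class `ρ` modulo `2 ^ b` lead to the same states,
the predictor takes the same values at `2 ^ k n + r` and `2 ^ k n + r'`, while the difference of the
values of the joint pattern at these places is again a nonzero joint pattern, at `2 ^ k n`.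
The case of one dilate `a = 0` and no predictor is the starting file `PatternCounts`.
-/

namespace Pool.Agent.Results.MP_ebc808_nt.JointDilatePatterns

open PowerSeries

/-- `u(n)` can be computed in one pass over the binary digits of `n` with `Q` memory states: either for
every `k` the value `u(2 ^ k n + r)` (`n ≥ 1`, `r < 2 ^ k`) depends only on `n` and on one of `Q` states
which is determined by `r` (the digits are read from the lowest one), or for every `k` it depends only
on `r` and on one of `Q` states which is determined by `n` (from the highest one) -/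
def OnePass (Q : ℕ) (u : ℕ → ZMod 2) : Prop :=
  (∀ k : ℕ, ∃ (s : ℕ → Fin Q) (h : Fin Q → ℕ → ZMod 2), ∀ n r : ℕ, 1 ≤ n → r < 2 ^ k →
    u (2 ^ k * n + r) = h (s r) n) ∨
  (∀ k : ℕ, ∃ (s : ℕ → Fin Q) (h : Fin Q → ℕ → ZMod 2), ∀ n r : ℕ, 1 ≤ n → r < 2 ^ k →
    u (2 ^ k * n + r) = h (s n) r)

theorem result (A L b R Q K : ℕ) :
    ∃ X : ℕ, ∀ x : ℕ, X ≤ x → ∀ c : Fin (A + 1) → Fin (L + 1) → ZMod 2, c ≠ 0 →
      ∀ v : Fin R → ℕ → ZMod 2, (∀ z, OnePass Q (v z)) → ∀ Φ : (Fin R → ZMod 2) → ZMod 2,
      ∀ (ρ : ℕ) (κ : ZMod 2),
        √x * Real.log (Real.log x) ^ K / Real.log x ≤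
          (((Finset.range (x + 1)).filter fun n => n % 2 ^ b = ρ % 2 ^ b ∧
            ∑ a : Fin (A + 1), ∑ i : Fin (L + 1),
              c a i * (Fintype.card (Nat.Partition (4 ^ (a : ℕ) * n + i)) : ZMod 2) +
              Φ (fun z => v z n) = κ).card : ℝ) := by
  obtain ⟨X, hX⟩ := Pool.Agent.N493.PE.mainJ 1 b A L R Q K (by norm_num)
  refine ⟨X, fun x hx c hc v hv Φ ρ κ => ?_⟩
  have h := hX c hc v hv Φ ρ κ x hx
  have e : (((Finset.range (x + 1)).filter fun n => n % 2 ^ b = ρ % 2 ^ b ∧
      Pool.Agent.N493.PE.wF c (fun n => coeff n (Pool.Agent.N493.PD.Ft 1)) n +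
        Φ (fun z => v z n) = κ)) =
      (Finset.range (x + 1)).filter fun n => n % 2 ^ b = ρ % 2 ^ b ∧
        ∑ a : Fin (A + 1), ∑ i : Fin (L + 1),
          c a i * (Fintype.card (Nat.Partition (4 ^ (a : ℕ) * n + i)) : ZMod 2) +
          Φ (fun z => v z n) = κ := by
    ext n
    unfold Pool.Agent.N493.PE.wF
    simp only [Finset.mem_filter, pow_one, coeff_mk]
  rw [e] at h
  exact h

end Pool.Agent.Results.MP_ebc808_nt.JointDilatePatterns
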