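import Pool.Agent.N493.PG9

set_option autoImplicit false

/-!
# Parity density 1/2 after moving a sparse random set of parts by one (MP_ebc808_nt)

Let `d ≥ 1` and let `M` be a random set such that the events `s ∈ M` are independent and
`κ s ^ (-c) ≤ P(s ∈ M) ≤ 1 - κ s ^ (-c)` for some `κ > 0` and `c < 1`. Let `a_s = s + d` for `s ∈ M` and
`a_s = s` for the other `s`: some of the parts of the partitions are moved by `d` (for `d = 1` by one),
for instance about `x ^ (1 - c)` of the parts up to `x`. Almost surely the number of the partitions of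
`n` with parts from the sequence `a_1, a_2, …` (if `a_s = a_r`, `s ≠ r`, then this part has two colours)
is even with density `1 / 2` and odd with density `1 / 2`; all blocks of `L` parities occur with density
`2 ^ (-L)`, also relative to every given set `B` of `n`; and the same is true for all odd powers of the
generating function, multiplied by a fixed power series `G` with integer coefficients and odd constant
term. Consequently there is, for every `ε > 0`, a set `M` with `∑_{s ∈ M} s ^ (-ε) < ∞` with this
property, for all `d ≥ 1`: the statement of the question becomes true if `O(x ^ ε)` of the parts up to `x`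
are moved by one.

Method. In `Results/MP_a3366f_nt/SparseRandomParts` parts are removed. The removal of a part `s > n / 2`
changes the parity `a(n)` by `a(n - s)`; here the move of the part `s` changes it by the coefficient of
`(1 + X ^ d) A(X)` at `n - s`, so that correlations of the coefficients of `A` are bounded by the number
of the odd coefficients of `(1 + X ^ d) A`, this by the number of those of `(1 + X ^ d) ^ 2 A`, and so on
(`N493/PG*`); the number of steps is bounded in terms of `c`, and at the last step it is enough to have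
the constant term 1.
-/

namespace Pool.Agent.Results.MP_ebc808_nt.SparselyMovedParts

open Filter Topology MeasureTheory ProbabilityTheory PowerSeries

/-- the sequence of the parts: `s + d` for `s ∈ M`, and `s` for the other `s` -/
noncomputable def parts (d : ℕ) (M : Set ℕ) (s : ℕ) : ℕ := by
  classical
  exact if s ∈ M then s + d else s

/-- for a sequence `a` with `a s ≥ s`: the number of the partitions of `n` with parts from `a 1, a 2, …`
(equal parts with different indices have different colours), that is, of the ways to write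
`n = l_1 + ⋯ + l_n` with `l_s ≥ 0` divisible by `a s` -/
def ways (a : ℕ → ℕ) (n : ℕ) : ℕ :=
  (((Finset.Icc 1 n).finsuppAntidiag n).filter fun l : ℕ →₀ ℕ => ∀ s ∈ Finset.Icc 1 n, a s ∣ l s).card

/-- the coefficient of `X ^ n` in `G(X) (∑ ways a k X ^ k) ^ t` -/
noncomputable def coefficient (G : PowerSeries ℤ) (a : ℕ → ℕ) (t n : ℕ) : ℤ :=
  coeff n (G * (PowerSeries.mk fun k => (ways a k : ℤ)) ^ t)

/-- among the `n < N` in `B`, a block `w` of length `L` is equal to the parities of
`A(n), …, A(n + L - 1)` for `2 ^ (-L) #(B ∩ [0, N)) + o(N)` of the `n`, for all `L` and `w` -/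
def Equidistributed (B : Set ℕ) (A : ℕ → ℤ) : Prop :=
  ∀ (L : ℕ) (w : ℕ → ZMod 2), Tendsto (fun N : ℕ =>
    (({n : ℕ | n < N ∧ n ∈ B ∧ ∀ i < L, (A (n + i) : ZMod 2) = w i}.ncard : ℝ) -
      ({n : ℕ | n < N ∧ n ∈ B}.ncard : ℝ) / 2 ^ L) / N) atTop (𝓝 0)

theorem result :
    (∀ (Ω : Type) [MeasurableSpace Ω] (P : Measure Ω) [IsProbabilityMeasure P] (M : Ω → Set ℕ),
      (∀ s, MeasurableSet {ω | s ∈ M ω}) → iIndepSet (fun s => {ω | s ∈ M ω}) P →
      ∀ c κ : ℝ, c < 1 → 0 < κ →
      (∀ s : ℕ, 1 ≤ s → κ * (s : ℝ) ^ (-c) ≤ P.real {ω | s ∈ M ω} ∧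
        κ * (s : ℝ) ^ (-c) ≤ P.real {ω | s ∉ M ω}) →
      ∀ d : ℕ, 1 ≤ d → ∀ G : PowerSeries ℤ, Odd (constantCoeff G) → ∀ B : Set ℕ,
      ∀ᵐ ω ∂P, ∀ t : ℕ, Odd t → Equidistributed B (coefficient G (parts d (M ω)) t)) ∧
    (∀ ε : ℝ, 0 < ε → ∀ G : ℕ → PowerSeries ℤ, (∀ j, Odd (constantCoeff (G j))) →
      ∀ B : ℕ → Set ℕ, ∃ M : Set ℕ, Summable (fun s : M => ((s : ℕ) : ℝ) ^ (-ε)) ∧
        ∀ d j k t : ℕ, 1 ≤ d → Odd t →
          Equidistributed (B k) (coefficient (G j) (parts d M) t)) := by
  constructor
  · intro Ω _ P _ M hM hind c κ hc hκ h d hd G hG B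
    exact Pool.Agent.N493.PG.randomMoved P M hM hind hc hκ (fun s hs => (h s hs).1)
      (fun s hs => (h s hs).2) hd hG B
  · intro ε hε G hG B
    exact Pool.Agent.N493.PG.exists_moved hε hG B

end Pool.Agent.Results.MP_ebc808_nt.SparselyMovedParts
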